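import Pool.Agent.Lib.MP_7aa778_co.Zigzag

/-!
# MP_7aa778_co: Gupta's bound, with an explicit cycle
-/

set_option autoImplicit false

namespace Pool.Agent.Results.MP_7aa778_co.ZigzagCycle

open List

/-- The rotation of the word `a` which starts after its first `j` letters:
`a_(j+1), ..., a_m, a_1, ..., a_j`. -/
def rotation (a : List ℕ) (j : ℕ) : List ℕ := a.drop j ++ a.take j

/-- `p` is a permutation of `1, ..., n`: a rearrangement of the list `[1, 2, ..., n]`. -/
def IsPermutation (n : ℕ) (p : List ℕ) : Prop := p.Perm (List.range' 1 n)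

/-- The cycle `a` over the alphabet `{1, ..., n}` is permutation-covering: every permutation of
`1, ..., n` is a subsequence of one of its rotations. -/
def PermutationCovering (n : ℕ) (a : List ℕ) : Prop :=
  (∀ x ∈ a, 1 ≤ x ∧ x ≤ n) ∧
    ∀ p : List ℕ, IsPermutation n p → ∃ j < a.length, p.Sublist (rotation a j)

/-- The number `m(n)` of the problem: the least length of a permutation-covering cycle over
`{1, ..., n}`. -/
noncomputable def minLength (n : ℕ) : ℕ :=
  sInf {m : ℕ | ∃ a : List ℕ, a.length = m ∧ PermutationCovering n a}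

/-- The zigzag cycle: with `L = ⌊n² / 4⌋`, the residues modulo `n` (in `{1, ..., n}`) of
`1, 2, ..., L, L + 1, L, ..., 3, 2`, a word of length `2 L = ⌊n² / 2⌋`. -/
def zigzag (n : ℕ) : List ℕ :=
  (List.range (2 * (n ^ 2 / 4))).map fun s => min s (2 * (n ^ 2 / 4) - s) % n + 1

/-- For every `n ≥ 2` the zigzag cycle has length `⌊n² / 2⌋` and is permutation-covering; moreover
every permutation of `1, ..., n` has a rotation which is a subsequence of the zigzag word itself. So
`m(n)` is attained and `m(n) ≤ ⌊n² / 2⌋`. -/
theorem result (n : ℕ) (hn : 2 ≤ n) :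
    (zigzag n).length = n ^ 2 / 2 ∧
    PermutationCovering n (zigzag n) ∧
    (∀ p : List ℕ, IsPermutation n p → ∃ i < n, (rotation p i).Sublist (zigzag n)) ∧
    IsLeast {m : ℕ | ∃ a : List ℕ, a.length = m ∧ PermutationCovering n a} (minLength n) ∧
    minLength n ≤ n ^ 2 / 2 := by
  have hn0 : 0 < n := by omega
  have hlen : (zigzag n).length = n ^ 2 / 2 := by
    unfold zigzag
    rw [List.length_map, List.length_range]
    rcases Nat.even_or_odd' n with ⟨k, rfl | rfl⟩
    · have h : (2 * k) ^ 2 = 4 * k ^ 2 := by ring
      rw [h]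
      omega
    · have h : (2 * k + 1) ^ 2 = 4 * (k ^ 2 + k) + 1 := by ring
      rw [h]
      omega
  have hlet : ∀ x ∈ zigzag n, 1 ≤ x ∧ x ≤ n := by
    intro x hx
    unfold zigzag at hx
    rw [List.mem_map] at hx
    obtain ⟨s, -, rfl⟩ := hx
    have := Nat.mod_lt (min s (2 * (n ^ 2 / 4) - s)) hn0
    omega
  have hrot : ∀ p : List ℕ, IsPermutation n p → ∃ i < n, (rotation p i).Sublist (zigzag n) := by
    intro p hp
    have hpl : p.length = n := by
      have := hp.length_eq
      rwa [List.length_range'] at this
    have hpn : p.Nodup := hp.nodup_iff.2 (List.nodup_range' (step := 1))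
    have hpm : ∀ x ∈ p, 1 ≤ x ∧ x ≤ n := by
      intro x hx
      have h := (hp.mem_iff (a := x)).1 hx
      rw [List.mem_range'_1] at h
      omega
    let t : ℕ → ℕ := fun k => p[k % n]'(by rw [hpl]; exact Nat.mod_lt _ hn0) - 1
    have htm : ∀ k, 1 ≤ p[k % n]'(by rw [hpl]; exact Nat.mod_lt _ hn0) ∧
        p[k % n]'(by rw [hpl]; exact Nat.mod_lt _ hn0) ≤ n := fun k =>
      hpm _ (List.getElem_mem _)
    obtain ⟨i, hi, f, hf, hfj⟩ := Pool.Agent.Lib.Gupta.sublist_zigzag hn t
      (fun k => by
        have := htm k
        simp only [t]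
        omega)
      (fun k => by simp only [t, Nat.add_mod_right])
      (fun i j hij => by
        have h1 := htm i
        have h2 := htm j
        have h3 : p[i % n]'(by rw [hpl]; exact Nat.mod_lt _ hn0) =
            p[j % n]'(by rw [hpl]; exact Nat.mod_lt _ hn0) := by
          simp only [t] at hij
          omega
        exact (hpn.getElem_inj_iff).1 h3)
    refine ⟨i, hi, ?_⟩
    have hrw : rotation p i = p.rotate i := by
      unfold rotation
      rw [List.rotate_eq_drop_append_take (by omega)]
    rw [hrw]
    have hlen1 : (p.rotate i).length = n := by rw [List.length_rotate, hpl]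
    have hlen2 : (zigzag n).length = 2 * (n ^ 2 / 4) := by
      unfold zigzag
      rw [List.length_map, List.length_range]
    have hmono : StrictMono (fun ix : Fin (p.rotate i).length =>
        (⟨f ix.val, lt_of_lt_of_eq (hfj ix.val (lt_of_lt_of_eq ix.isLt hlen1)).1 hlen2.symm⟩ :
          Fin (zigzag n).length)) := by
      intro x y hxy
      exact hf hxy
    refine List.sublist_iff_exists_fin_orderEmbedding_get_eq.mpr
      ⟨OrderEmbedding.ofStrictMono _ hmono, ?_⟩
    intro ix
    have hix : ix.val < n := lt_of_lt_of_eq ix.isLt hlen1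
    have h2 := (hfj ix.val hix).2
    have h3 := htm (i + ix.val)
    rw [OrderEmbedding.coe_ofStrictMono]
    simp only [zigzag, List.get_eq_getElem, List.getElem_rotate, List.getElem_map,
      List.getElem_range]
    rw [h2]
    simp only [t]
    have h4 : (ix.val + i) % p.length = (i + ix.val) % n := by rw [hpl, add_comm]
    simp only [h4]
    omega
  have hcov : PermutationCovering n (zigzag n) := by
    refine ⟨hlet, fun p hp => ?_⟩
    obtain ⟨i, hi, h⟩ := hrot p hp
    have hpl : p.length = n := by
      have := hp.length_eq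
      rwa [List.length_range'] at this
    have hrw : rotation p i = p.rotate i := by
      unfold rotation
      rw [List.rotate_eq_drop_append_take (by omega)]
    rw [hrw] at h
    obtain ⟨k, hk⟩ := Pool.Agent.Lib.Gupta.exists_rotate (by omega) h
    have hpos : 0 < (zigzag n).length := by
      rw [hlen]
      have : 2 * 2 ≤ n ^ 2 := by nlinarith
      omega
    have hk1 : k % (zigzag n).length < (zigzag n).length := Nat.mod_lt _ hpos
    refine ⟨k % (zigzag n).length, hk1, ?_⟩
    unfold rotation
    rw [← List.rotate_eq_drop_append_take hk1.le, List.rotate_mod]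
    exact hk
  have hne : {m : ℕ | ∃ a : List ℕ, a.length = m ∧ PermutationCovering n a}.Nonempty :=
    ⟨_, zigzag n, hlen, hcov⟩
  exact ⟨hlen, hcov, hrot, ⟨Nat.sInf_mem hne, fun m hm => Nat.sInf_le hm⟩,
    Nat.sInf_le ⟨zigzag n, hlen, hcov⟩⟩

end Pool.Agent.Results.MP_7aa778_co.ZigzagCycle
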